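import Pool.Agent.H54.FP.Gd

/-!
# MP_dd21a1_an: isomorphisms of reduced free powers of `C([0,1])` leave the trace class

`A_k = C([0,1])^{*_r k}` acts on the free product Hilbert space with vacuum vector `Ω` (`FreeRep`, unique up to
unitary equivalence), `s_i` is the semicircular generator of the `i`-th copy of `C([0,1])`, `S_i` are the right
creation operators: `[s_j, S_i] = δ_ij P`, `P` the projection onto `ℂ Ω`. All commutators `[a, S_i]`, `a ∈ A_k`, are
compact, and they are trace class for a dense set of `a`. If `k ≠ l` then no isomorphism `A_l → A_k` maps the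
semicircular generators of `A_l` to elements whose commutators with the `S_i` are trace class. Nothing is assumed on
the inverse isomorphism, nor on states.

Third part: the same for all generating tuples with bounded dual systems, of `m` elements for `A_l` and of `n`
elements for `A_k`; then `m = n`.
-/

namespace Pool.Agent.Results.MP_dd21a1_an.OneSidedTraceClass

open Pool.Agent.H54.FP

universe w w'

theorem result (k l : ℕ) (hl : 2 ≤ l) :
    (∃ h, IsSemi h) ∧ RepExists k ∧
    ∀ (H : Type w) [NormedAddCommGroup H] [InnerProductSpace ℂ H] [CompleteSpace H] (F : FreeRep k H)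
      (K : Type w') [NormedAddCommGroup K] [InnerProductSpace ℂ K] [CompleteSpace K] (G : FreeRep l K),
    (∀ h, IsSemi h → ∃ S : Fin k → Op H, F.GenDual (F.s h) S ∧ F.Toeplitz S) ∧
    (k ≠ l → ∀ (h h' : C(unitInterval, ℝ)) (S : Fin k → Op H), IsSemi h → IsSemi h' → IsDual F.Ω (F.s h) S →
      ∀ Φ : Op K → Op H, IsStarIso G.A F.A Φ → ¬ TraceComm (fun j => Φ (G.s h' j)) S) ∧
    ∀ (m n : ℕ) (x R : Fin m → Op K) (y S : Fin n → Op H), G.GenDual x R → F.GenDual y S →
      ∀ Φ : Op K → Op H, IsStarIso G.A F.A Φ → TraceComm (fun j => Φ (x j)) S → m = n := by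
  refine ⟨exists_semi, gd_rep k, fun H _ _ _ F K _ _ _ G => ⟨?_, ?_, ?_⟩⟩
  · intro h hh
    exact gd_exists F hh
  · intro hkl h h' S hh hh' hS Φ hΦ hcon
    obtain ⟨R, hR, -⟩ := gd_exists G hh'
    obtain ⟨S', hS', -⟩ := gd_exists F hh
    exact hkl (gd_main hl F G hR ⟨hS, hS'.2⟩ hΦ hcon).symm
  · intro m n x R y S hx hy Φ hΦ hT
    exact gd_main hl F G hx hy hΦ hT

end Pool.Agent.Results.MP_dd21a1_an.OneSidedTraceClass
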